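import Pool.Agent.Lib.MP_c7bce0_lc.Asym

/-!
# The optimal deterministic competitive ratio on the mesh

The optimal competitive ratio of deterministic online algorithms for scheduling malleable jobs with
precedence constraints on an `n × n` mesh (so `m = n ^ 2` processors) has order
`(log m / log log m) ^ 2`.
-/

namespace Pool.Agent.Results.MP_c7bce0_lc.DetMesh

open Filter Pool.Agent.Lib.MP_c7bce0_lc

/-- `R_det(m) = Θ((log m / log log m) ^ 2)`, where `m = n ^ 2`. -/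
theorem result : ∃ c₁ c₂ : ℝ, 0 < c₁ ∧ 0 < c₂ ∧ ∀ᶠ n : ℕ in atTop,
    ENNReal.ofReal (c₁ *
      (Real.log ((n : ℝ) ^ 2) / Real.log (Real.log ((n : ℝ) ^ 2))) ^ 2) ≤ Rdet n ∧
    Rdet n ≤ ENNReal.ofReal (c₂ *
      (Real.log ((n : ℝ) ^ 2) / Real.log (Real.log ((n : ℝ) ^ 2))) ^ 2) := by
  refine ⟨1 / (24 * 264 ^ 2), 180, by norm_num, by norm_num, ?_⟩
  filter_upwards [Rrand_lower, Rdet_upper] with n h1 h2
  exact ⟨h1.trans (Rrand_le_Rdet n), h2⟩

end Pool.Agent.Results.MP_c7bce0_lc.DetMesh
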