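import Pool.Agent.Lib.MP_c7bce0_lc.Asym

/-!
# The optimal randomized competitive ratio on the mesh

The optimal competitive ratio of randomized online algorithms (against an adversary that fixes the
instance in advance) for scheduling malleable jobs with precedence constraints on an `n × n` mesh
(so `m = n ^ 2` processors) has order `(log m / log log m) ^ 2`.
-/

namespace Pool.Agent.Results.MP_c7bce0_lc.RandMesh

open Filter Pool.Agent.Lib.MP_c7bce0_lc

/-- `R_rand(m) = Θ((log m / log log m) ^ 2)`, where `m = n ^ 2`. -/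
theorem result : ∃ c₁ c₂ : ℝ, 0 < c₁ ∧ 0 < c₂ ∧ ∀ᶠ n : ℕ in atTop,
    ENNReal.ofReal (c₁ *
      (Real.log ((n : ℝ) ^ 2) / Real.log (Real.log ((n : ℝ) ^ 2))) ^ 2) ≤ Rrand n ∧
    Rrand n ≤ ENNReal.ofReal (c₂ *
      (Real.log ((n : ℝ) ^ 2) / Real.log (Real.log ((n : ℝ) ^ 2))) ^ 2) := by
  refine ⟨1 / (24 * 264 ^ 2), 180, by norm_num, by norm_num, ?_⟩
  filter_upwards [Rrand_lower, Rdet_upper] with n h1 h2
  exact ⟨h1, (Rrand_le_Rdet n).trans h2⟩

end Pool.Agent.Results.MP_c7bce0_lc.RandMesh
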